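import Mathlib

set_option autoImplicit false

/-!
Subset stabilizers and large quotients of permutation groups: the answer to Q1 is negative, even for
transitive groups.

For `s ≥ 0` let `A = (ZMod 2)^s`, `Ω = A × ZMod 3`, and let `G` consist of the permutations
`(a, x) ↦ (a + t, σ (l ⬝ a + c) x + b a)` with `t, l ∈ A`, `c ∈ ZMod 2`, `b : A → ZMod 3` and
`σ : ZMod 2 → {1, -1}`. The map `φ` sends such a permutation to `l ∈ A`.
-/

namespace Pool.Agent.Results.MP_5c8dfa_al.TransitiveNegation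

/-- the sign `ZMod 2 → {1, -1}` in `ZMod 3` -/
def sg (e : ZMod 2) : ZMod 3 := if e = 0 then 1 else 2

lemma sg_zero : sg 0 = 1 := by decide

lemma sg_add : ∀ e f : ZMod 2, sg (e + f) = sg e * sg f := by decide

lemma sg_sq : ∀ e : ZMod 2, sg e * sg e = 1 := by decide

lemma sg_inj : ∀ e f : ZMod 2, sg e = sg f → e = f := by decide

lemma fix_set : ∀ (D : Finset (ZMod 3)) (e : ZMod 2), ∃ b : ZMod 3,
    ∀ x, (sg e * x + b ∈ D ↔ x ∈ D) := by decide

/-- the set of points -/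
abbrev Om (s : ℕ) : Type := (Fin s → ZMod 2) × ZMod 3

/-- the pairs `(g, l)` -/
def IsG {s : ℕ} (g : Equiv.Perm (Om s)) (l : Fin s → ZMod 2) : Prop :=
  ∃ (t : Fin s → ZMod 2) (c : ZMod 2) (b : (Fin s → ZMod 2) → ZMod 3),
    ∀ a x, g (a, x) = (a + t, sg (l ⬝ᵥ a + c) * x + b a)

/-- the group of pairs `(g, l)` -/
def GG (s : ℕ) : Subgroup (Equiv.Perm (Om s) × Multiplicative (Fin s → ZMod 2)) where
  carrier := {p | IsG p.1 p.2.toAdd}
  mul_mem' := by
    rintro ⟨g', l'⟩ ⟨g, l⟩ ⟨t', c', b', h'⟩ ⟨t, c, b, h⟩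
    refine ⟨t + t', c + c' + l'.toAdd ⬝ᵥ t,
      fun a => sg (l'.toAdd ⬝ᵥ (a + t) + c') * b a + b' (a + t), ?_⟩
    intro a x
    show g' (g (a, x)) = _
    simp only at h h'
    rw [h, h']
    refine Prod.ext ?_ ?_
    · simp only [add_assoc]
    · show sg (l'.toAdd ⬝ᵥ (a + t) + c') * (sg (l.toAdd ⬝ᵥ a + c) * x + b a) + b' (a + t) =
        sg ((l'.toAdd + l.toAdd) ⬝ᵥ a + (c + c' + l'.toAdd ⬝ᵥ t)) * x +
          (sg (l'.toAdd ⬝ᵥ (a + t) + c') * b a + b' (a + t))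
      have h1 : (l'.toAdd + l.toAdd) ⬝ᵥ a + (c + c' + l'.toAdd ⬝ᵥ t)
          = (l'.toAdd ⬝ᵥ (a + t) + c') + (l.toAdd ⬝ᵥ a + c) := by
        rw [add_dotProduct, dotProduct_add]; ring
      rw [h1, sg_add (l'.toAdd ⬝ᵥ (a + t) + c') (l.toAdd ⬝ᵥ a + c)]
      ring
  one_mem' := by
    refine ⟨0, 0, fun _ => 0, ?_⟩
    intro a x
    simp [sg_zero]
  inv_mem' := by
    rintro ⟨g, l⟩ ⟨t, c, b, h⟩
    refine ⟨-t, c - l.toAdd ⬝ᵥ t, fun a => - (sg (l.toAdd ⬝ᵥ (a - t) + c) * b (a - t)), ?_⟩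
    intro a x
    simp only at h
    show g⁻¹ (a, x) = _
    rw [Equiv.Perm.inv_eq_iff_eq, h]
    refine Prod.ext ?_ ?_
    · simp
    · show x = sg (l.toAdd ⬝ᵥ (a + -t) + c) * (sg ((-l.toAdd) ⬝ᵥ a + (c - l.toAdd ⬝ᵥ t)) * x +
          -(sg (l.toAdd ⬝ᵥ (a - t) + c) * b (a - t))) + b (a + -t)
      have h1 : (-l.toAdd) ⬝ᵥ a + (c - l.toAdd ⬝ᵥ t) = l.toAdd ⬝ᵥ (a + -t) + c := by
        rw [neg_dotProduct, dotProduct_add, dotProduct_neg]
        have h2 : ∀ z : ZMod 2, -z = z := by decide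
        rw [h2 (l.toAdd ⬝ᵥ a)]
        ring
      rw [h1, sub_eq_add_neg]
      have h4 := sg_sq (l.toAdd ⬝ᵥ (a + -t) + c)
      linear_combination (-x + b (a + -t)) * h4

lemma fst_inj (s : ℕ) : Function.Injective
    ((MonoidHom.fst (Equiv.Perm (Om s)) (Multiplicative (Fin s → ZMod 2))).comp
      (GG s).subtype) := by
  rintro ⟨⟨g, l⟩, t, c, b, h⟩ ⟨⟨g', l'⟩, t', c', b', h'⟩ hgg
  have hg : g = g' := hgg
  subst hg
  simp only at h h'
  have h1 : ∀ a, l.toAdd ⬝ᵥ a + c = l'.toAdd ⬝ᵥ a + c' := by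
    intro a
    apply sg_inj
    have e0 := h a 0
    rw [h' a 0] at e0
    have e1 := h a 1
    rw [h' a 1] at e1
    have f0 := congrArg Prod.snd e0
    have f1 := congrArg Prod.snd e1
    simp only [mul_zero, zero_add, mul_one] at f0 f1
    rw [f0] at f1
    exact (add_right_cancel f1).symm
  have h0 := h1 0
  simp only [dotProduct_zero, zero_add] at h0
  have h2 : l.toAdd = l'.toAdd := by
    funext i
    have h3 := h1 (Pi.single i 1)
    rw [h0] at h3
    have h4 := add_right_cancel h3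
    simpa using h4
  have h5 : l = l' := Multiplicative.toAdd.injective h2
  subst h5
  rfl

/-- For every `C` there are a finite set `Ω`, a transitive group `G` of permutations of `Ω` and an
epimorphism `φ` from `G` onto a finite group `H` of order at least `C` such that the setwise
stabilizer in `G` of every subset `Δ` of `Ω` is mapped by `φ` onto `H`. -/
theorem result : ∀ C : ℕ, ∃ (Ω : Type) (_ : Fintype Ω) (G : Subgroup (Equiv.Perm Ω))
    (H : Type) (_ : Group H) (_ : Finite H) (φ : G →* H),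
    (∀ x y : Ω, ∃ g ∈ G, g x = y) ∧ Function.Surjective φ ∧ C ≤ Nat.card H ∧
    ∀ Δ : Set Ω, ∀ h : H, ∃ g : G, (g : Equiv.Perm Ω) '' Δ = Δ ∧ φ g = h := by
  intro C
  have hcov : ∀ (s : ℕ) (Δ : Set (Om s)) (l : Fin s → ZMod 2),
      ∃ g : Equiv.Perm (Om s), IsG g l ∧ g '' Δ = Δ := by
    intro s Δ l
    classical
    have h1 : ∀ a : Fin s → ZMod 2, ∃ b : ZMod 3,
        ∀ x, ((a, sg (l ⬝ᵥ a) * x + b) ∈ Δ ↔ (a, x) ∈ Δ) := by
      intro a
      obtain ⟨b, hb⟩ := fix_set (Finset.univ.filter fun x => (a, x) ∈ Δ) (l ⬝ᵥ a)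
      exact ⟨b, fun x => by simpa using hb x⟩
    choose b hb using h1
    let f : Om s → Om s := fun p => (p.1, sg (l ⬝ᵥ p.1) * p.2 + b p.1)
    let f' : Om s → Om s := fun p => (p.1, sg (l ⬝ᵥ p.1) * (p.2 - b p.1))
    have hl : Function.LeftInverse f' f := by
      rintro ⟨a, x⟩
      refine Prod.ext rfl ?_
      show sg (l ⬝ᵥ a) * (sg (l ⬝ᵥ a) * x + b a - b a) = x
      linear_combination x * sg_sq (l ⬝ᵥ a)
    have hr : Function.RightInverse f' f := by
      rintro ⟨a, x⟩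
      refine Prod.ext rfl ?_
      show sg (l ⬝ᵥ a) * (sg (l ⬝ᵥ a) * (x - b a)) + b a = x
      linear_combination (x - b a) * sg_sq (l ⬝ᵥ a)
    let g : Equiv.Perm (Om s) := ⟨f, f', hl, hr⟩
    have hmem : ∀ p, g p ∈ Δ ↔ p ∈ Δ := by
      rintro ⟨a, x⟩
      exact hb a x
    refine ⟨g, ⟨0, 0, b, ?_⟩, ?_⟩
    · intro a x
      show f (a, x) = _
      simp [f]
    · ext p
      constructor
      · rintro ⟨q, hq, rfl⟩
        exact (hmem q).mpr hq
      · intro hp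
        refine ⟨g⁻¹ p, ?_, by simp⟩
        rw [← hmem]
        simpa using hp
  let s := C
  let ι := ((MonoidHom.fst (Equiv.Perm (Om s)) (Multiplicative (Fin s → ZMod 2))).comp
    (GG s).subtype)
  let e : GG s ≃* ι.range := MonoidHom.ofInjective (fst_inj s)
  let ψ : GG s →* Multiplicative (Fin s → ZMod 2) :=
    (MonoidHom.snd (Equiv.Perm (Om s)) (Multiplicative (Fin s → ZMod 2))).comp (GG s).subtype
  have he : ∀ p : GG s, ((e p : ι.range) : Equiv.Perm (Om s)) = p.1.1 := fun p => rfl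
  have key : ∀ Δ : Set (Om s), ∀ h : Multiplicative (Fin s → ZMod 2), ∃ g : ι.range,
      (g : Equiv.Perm (Om s)) '' Δ = Δ ∧ (ψ.comp e.symm.toMonoidHom) g = h := by
    intro Δ h
    obtain ⟨g, hg, hΔ⟩ := hcov s Δ h.toAdd
    let p : GG s := ⟨(g, h), hg⟩
    refine ⟨e p, ?_, ?_⟩
    · rw [he]
      exact hΔ
    · show ψ (e.symm (e p)) = h
      rw [MulEquiv.symm_apply_apply]
      rfl
  refine ⟨Om s, inferInstance, ι.range, Multiplicative (Fin s → ZMod 2), inferInstance,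
    inferInstance, ψ.comp e.symm.toMonoidHom, ?_, ?_, ?_, key⟩
  · rintro ⟨a, x⟩ ⟨a', x'⟩
    let g : Equiv.Perm (Om s) := (Equiv.addRight (a' - a)).prodCongr (Equiv.addRight (x' - x))
    have hg : IsG g (0 : Fin s → ZMod 2) := by
      refine ⟨a' - a, 0, fun _ => x' - x, ?_⟩
      intro a x
      simp [g, sg_zero]
    let p : GG s := ⟨(g, Multiplicative.ofAdd 0), hg⟩
    refine ⟨g, ⟨p, rfl⟩, ?_⟩
    simp [g]
  · intro h
    obtain ⟨g, -, hg⟩ := key Set.univ h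
    exact ⟨g, hg⟩
  · have h1 : Nat.card (Multiplicative (Fin s → ZMod 2)) = 2 ^ s := by
      rw [Nat.card_congr Multiplicative.toAdd, Nat.card_fun]
      simp
    rw [h1]
    exact Nat.lt_two_pow_self.le

end Pool.Agent.Results.MP_5c8dfa_al.TransitiveNegation
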